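import Pool.Agent.Helper11.M3.Goals4
import Pool.Agent.Helper30.PP2.ROSA

/-! Packet M3-Q_D of project M3 (helper11, MP_fc6b1e_nt); adapted from helper30's `ROSA.lean`. -/

set_option autoImplicit false

namespace Pool.Agent.Helper83.M3

open Finset
open Pool.Agent.Helper17.PP Pool.Agent.Helper17.PP0 Pool.Agent.Helper17.PP2
open Pool.Agent.Helper30.PP (mem_blk nm_pos sum_swap decomp rsj)
open Pool.Agent.Helper30.PP2 Pool.Agent.Helper11.M3

variable {p : ℕ} {B B₀ k U Λ C : Type} [Field k] [AddCommGroup U] [Module k U]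
    [AddCommGroup Λ] [Module k Λ] [AddCommGroup C] (S : Sys p B B₀ k U Λ C)

open Classical in
/-- the label function `y` at the split primes in the blocks `≠ j` -/
noncomputable def yy (j : ℕ) (y : B → k) : B → k :=
  fun q' ↦ if S.spl q' ∧ S.bl q' ≠ j then y q' else 0

open Classical in
lemma ph_gen [Algebra (ZMod p) k] (ψ : AddChar k ℂ) (χ : AddChar Λ ℂ) (r : Finset B)
    (x : U) (t s u v : k) (c' y' c y : B → k) (q q₁ : B) (hq : q ∉ r) (hq₁ : q₁ ∉ insert q r)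
    (h1 : c' q = t) (h2 : y' q = s) (h3 : c' q₁ = u) (h4 : y' q₁ = v)
    (hr : ∀ q' ∈ r, c' q' = c q') (hr' : ∀ q' ∈ r, y' q' = y q') :
    ph S ψ χ (insert q₁ (insert q r)) x c' y' =
      ph S ψ χ r x c y * AA S ψ χ r x c y t s q * AA S ψ χ r x c y u v q₁ *
        Ph S ψ t s u v q q₁ := by
  rw [ph_insert S ψ χ (insert q r) x _ _ q₁ hq₁, ph_insert S ψ χ r x _ _ q hq,
    ph_congr S ψ χ r x _ _ _ _ hr hr', h1, h2, h3, h4, prod_insert hq, h1, h2]
  have e1 : ∏ q' ∈ r, ψ (y' q' * (t * S.a q' q + c' q' * algebraMap (ZMod p) k (S.kap q' q))) =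
      ∏ q' ∈ r, ψ (y q' * (t * S.a q' q + c q' * algebraMap (ZMod p) k (S.kap q' q))) :=
    prod_congr rfl fun q' hq' => by rw [hr q' hq', hr' q' hq']
  have e2 : ∏ q' ∈ r, ψ (y' q' * (u * S.a q' q₁ +
      c' q' * algebraMap (ZMod p) k (S.kap q' q₁))) =
      ∏ q' ∈ r, ψ (y q' * (u * S.a q' q₁ + c q' * algebraMap (ZMod p) k (S.kap q' q₁))) :=
    prod_congr rfl fun q' hq' => by rw [hr q' hq', hr' q' hq']
  have e3 : S.R r x c' q = S.res q x + ∑ q' ∈ r, c q' * S.a q q' +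
      t * (S.dg q + ∑ q' ∈ r, algebraMap (ZMod p) k (S.kap q q')) := by
    unfold Sys.R
    rw [erase_eq_of_notMem hq, h1]
    congr 2
    exact sum_congr rfl fun q' hq' => by rw [hr q' hq']
  have e4 : S.R (insert q r) x c' q₁ =
      (S.res q₁ x + ∑ q' ∈ r, c q' * S.a q₁ q' +
      u * (S.dg q₁ + ∑ q' ∈ r, algebraMap (ZMod p) k (S.kap q₁ q'))) +
      (t * S.a q₁ q + u * algebraMap (ZMod p) k (S.kap q₁ q)) := by
    unfold Sys.R
    rw [erase_eq_of_notMem hq₁, h3, sum_insert hq, sum_insert hq, h1,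
      sum_congr rfl fun q' hq' => by rw [hr q' hq']]
    ring
  rw [e1, e2, e3, e4, mul_add v, AddChar.map_add_eq_mul]
  unfold AA Ph
  rw [AddChar.map_add_eq_mul]
  ring

open Classical in
lemma ph_two₄ [Algebra (ZMod p) k] (ψ : AddChar k ℂ) (χ : AddChar Λ ℂ) (j : ℕ) (r : Finset B)
    (x : U) (t s y₁ : k) (c y : B → k) (q q₁ : B) (hq : q ∉ r) (hq₁ : q₁ ∉ insert q r) :
    ph S ψ χ (insert q₁ (insert q r)) x (cutd S j q q₁ t c) (cute S j q q₁ s y₁ y) =
      ph S ψ χ r x (c0 S j c) (yy S j y) *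
        AA S ψ χ r x (c0 S j c) (yy S j y) t s q *
        AA S ψ χ r x (c0 S j c) (yy S j y) 0 y₁ q₁ *
        Ph S ψ t s 0 y₁ q q₁ := by
  have hne : q₁ ≠ q := fun h => hq₁ (h ▸ mem_insert_self _ _)
  refine ph_gen S ψ χ r x t s 0 y₁ _ _ _ _ q q₁ hq hq₁ ?_ ?_ ?_ ?_ ?_ ?_
  · simp [cutd]
  · simp [cute]
  · simp [cutd, hne]
  · simp [cute, hne]
  · intro q' hq'
    have h1 : q' ≠ q := by rintro rfl; exact hq hq'
    have h2 : q' ≠ q₁ := by rintro rfl; exact hq₁ (mem_insert_of_mem hq')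
    simp [cutd, c0, h1, h2]
  · intro q' hq'
    have h1 : q' ≠ q := by rintro rfl; exact hq hq'
    have h2 : q' ≠ q₁ := by rintro rfl; exact hq₁ (mem_insert_of_mem hq')
    simp [cute, yy, h1, h2]

/-- the conditions on `r` -/
def cR₄ (N : B → Prop) (i j : ℕ) (r : Finset B) : Prop :=
  Set.InjOn S.bs (r : Set B) ∧ (∀ q' ∈ r, S.spl q' → S.bl q' ≠ j) ∧
    ∀ q' ∈ r, N q' → S.bl q' < i

open Classical in
lemma cond_iff₄ (N : B → Prop)
    (hN : (∀ q, N q ∧ S.spl q) ∨ (∀ q, N q → ¬ S.spl q)) (i j : ℕ)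
    (r : Finset B) (q P₁ : B) (hq : q ∉ r) (hP : P₁ ∉ insert q r) :
    (S.Fam (insert P₁ (insert q r)) ∧
      (Wv S (insert P₁ (insert q r)) q ∧ S.bl q = j) ∧
      Piv S N (insert P₁ (insert q r)) P₁ ∧ P₁ ≠ q ∧ S.bl P₁ = i) ↔
    cR₄ S N i j r ∧ (S.bl q = j ∧ S.spl q) ∧ (S.bl P₁ = i ∧ N P₁) ∧
      (∀ q' ∈ r, S.bs P₁ ≠ S.bs q') ∧ (N q → j < i) ∧
      S.cls P₁ + (S.cls q + ∑ q' ∈ r, S.cls q') = S.cl₀ := by
  have hne : P₁ ≠ q := fun h => hP (h ▸ mem_insert_self _ _)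
  have hPr : P₁ ∉ r := fun h => hP (mem_insert_of_mem h)
  have mq : q ∈ insert P₁ (insert q r) := mem_insert_of_mem (mem_insert_self _ _)
  have mP : P₁ ∈ insert P₁ (insert q r) := mem_insert_self _ _
  have mr : ∀ q' ∈ r, q' ∈ insert P₁ (insert q r) := fun q' hq' =>
    mem_insert_of_mem (mem_insert_of_mem hq')
  have hNbl : ∀ a b, S.bs a = S.bs b → S.bl a = S.bl b := fun a b h => by
    unfold Sys.bl
    rw [S.bsN a b h]
  constructor
  · rintro ⟨⟨f1, f2⟩, ⟨⟨-, w2, w3⟩, hj⟩, ⟨-, t2, t3⟩, -, hi⟩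
    rw [sum_insert hP, sum_insert hq] at f2
    refine ⟨⟨?_, ?_, ?_⟩, ⟨hj, w2⟩, ⟨hi, t2⟩, ?_, ?_, f2⟩
    · refine f1.mono ?_
      intro z hz
      simp only [coe_insert, Set.mem_insert_iff]
      exact Or.inr (Or.inr hz)
    · intro q' hq' hs
      rw [← hj]
      exact w3 q' (mr q' hq') (by rintro rfl; exact hq hq') hs
    · intro q' hq' hn
      rw [← hi]
      exact t3 q' (mr q' hq') hn (by rintro rfl; exact hPr hq')
    · intro q' hq' h
      have := f1 (mem_coe.2 mP) (mem_coe.2 (mr q' hq')) h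
      exact hPr (this ▸ hq')
    · intro hn
      rw [← hj, ← hi]
      exact t3 q mq hn hne.symm
  · rintro ⟨⟨c1, c2, c3⟩, ⟨hj, w2⟩, ⟨hi, t2⟩, hb, hnq, f2⟩
    have hqr : ∀ q' ∈ r, S.bs q ≠ S.bs q' := fun q' hq' h =>
      c2 q' hq' ((S.bsS q q' h).1 w2) ((hNbl q q' h).symm.trans hj)
    have hPq : S.bs P₁ ≠ S.bs q := fun h => by
      rcases hN with hN | hN
      · have h1 := hnq (hN q).1
        have h2 := hNbl P₁ q h
        omega
      · exact hN P₁ t2 ((S.bsS P₁ q h).2 w2)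
    refine ⟨⟨?_, ?_⟩, ⟨⟨mq, w2, ?_⟩, hj⟩, ⟨mP, t2, ?_⟩, hne, hi⟩
    · rw [coe_insert, coe_insert, Set.injOn_insert (by
        simp only [Set.mem_insert_iff, not_or]
        exact ⟨hne, hPr⟩), Set.injOn_insert hq]
      refine ⟨⟨c1, ?_⟩, ?_⟩
      · rintro ⟨q', hq', h⟩
        exact hqr q' hq' h.symm
      · rintro ⟨q', hq', h⟩
        rcases hq' with rfl | hq'
        · exact hPq h.symm
        · exact hb q' hq' h.symm
    · rw [sum_insert hP, sum_insert hq]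
      exact f2
    · intro q' hq' hne' hs
      rw [hj]
      rcases mem_insert.1 hq' with h1 | h1
      · rw [h1, hi]
        rcases hN with hN | hN
        · have := hnq (hN q).1
          omega
        · exact absurd (h1 ▸ hs) (hN P₁ t2)
      rcases mem_insert.1 h1 with h1 | h1
      · exact absurd h1 hne'
      · exact c2 q' h1 hs
    · intro P' hP' hn hne'
      rw [hi]
      rcases mem_insert.1 hP' with h1 | h1
      · exact absurd h1 hne'
      rcases mem_insert.1 h1 with h1 | h1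
      · rw [h1, hj]
        exact hnq (h1 ▸ hn)
      · exact c3 P' h1 hn

open Classical in
lemma rs₄_eq (j : ℕ) (r : Finset B) (q P₁ : B) (hq : q ∉ r) (hP : P₁ ∉ insert q r)
    (hj : S.bl q = j) :
    rs₄ S (insert P₁ (insert q r)) q P₁ = rsj S j r := by
  have hne : P₁ ≠ q := fun h => hP (h ▸ mem_insert_self _ _)
  have hPr : P₁ ∉ r := fun h => hP (mem_insert_of_mem h)
  unfold rs₄ rsj
  rw [erase_insert_of_ne hne, erase_insert hq, erase_insert hPr, hj]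

open Classical in
/-- the summand for fixed `x, χ, c, y` -/
noncomputable def gg₄ [Algebra (ZMod p) k] [Fintype k]
    (ψ : AddChar k ℂ) (N : B → Prop) (i j : ℕ) (t s y₁ : k) (X : ℝ)
    (x : U) (χ : AddChar Λ ℂ) (c y : B → k) (b : Finset B) (q P₁ : B) : ℂ :=
  if S.Fam b ∧ (Wv S b q ∧ S.bl q = j) ∧ Piv S N b P₁ ∧ P₁ ≠ q ∧ S.bl P₁ = i then
    (Fintype.card k : ℂ) ^ (rs₄ S b q P₁).card *
      ph S ψ χ b x (cutd S j q P₁ t c) (cute S j q P₁ s y₁ y) *
      (Real.exp (-(S.nm b / X)) : ℂ)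
  else 0

open Classical in
/-- the coefficient of `P₁` -/
noncomputable def al₄ [Algebra (ZMod p) k]
    (ψ : AddChar k ℂ) (j : ℕ) (y₁ : k) (x : U) (χ : AddChar Λ ℂ) (c y : B → k)
    (P r : Finset B) (γ : C) (P₁ : B) : ℂ :=
  if P₁ ∈ P \ r ∧ S.cls P₁ = S.cl₀ - γ - ∑ q' ∈ r, S.cls q' ∧
      (∀ q' ∈ r, S.bs P₁ ≠ S.bs q') then
    AA S ψ χ r x (c0 S j c) (yy S j y) 0 y₁ P₁
  else 0

open Classical in
/-- the coefficient of `q` -/
noncomputable def be₄ [Algebra (ZMod p) k]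
    (ψ : AddChar k ℂ) (N : B → Prop) (i j : ℕ) (t s : k)
    (x : U) (χ : AddChar Λ ℂ) (c y : B → k) (P r : Finset B) (γ : C) (q : B) : ℂ :=
  if q ∈ P \ r ∧ S.cls q = γ ∧ (N q → j < i) then
    ph S ψ χ r x (c0 S j c) (yy S j y) * AA S ψ χ r x (c0 S j c) (yy S j y) t s q
  else 0

lemma al_norm₄ [Algebra (ZMod p) k] [Finite k] [Finite Λ]
    (ψ : AddChar k ℂ) (j : ℕ) (y₁ : k) (x : U) (χ : AddChar Λ ℂ) (c y : B → k)
    (P r : Finset B) (γ : C) (P₁ : B) :
    ‖al₄ S ψ j y₁ x χ c y P r γ P₁‖ ≤ 1 := by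
  unfold al₄
  split_ifs
  · rw [AA_norm]
  · simp

lemma be_norm₄ [Algebra (ZMod p) k] [Finite k] [Finite Λ]
    (ψ : AddChar k ℂ) (N : B → Prop) (i j : ℕ) (t s : k)
    (x : U) (χ : AddChar Λ ℂ) (c y : B → k) (P r : Finset B) (γ : C) (q : B) :
    ‖be₄ S ψ N i j t s x χ c y P r γ q‖ ≤ 1 := by
  unfold be₄
  split_ifs
  · rw [norm_mul, AA_norm, ph_norm]
    norm_num
  · simp

open Classical in
lemma gg_eq₄ [Algebra (ZMod p) k] [Fintype k] [Fintype C]
    (ψ : AddChar k ℂ) (N : B → Prop)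
    (hN : (∀ q, N q ∧ S.spl q) ∨ (∀ q, N q → ¬ S.spl q)) (i j : ℕ)
    (t s y₁ : k) (X : ℝ) (hX : 0 < X)
    (x : U) (χ : AddChar Λ ℂ) (c y : B → k) (P r : Finset B)
    (hcR : cR₄ S N i j r) (q P₁ : B)
    (hq : q ∈ P \ r) (hP : P₁ ∈ P \ insert q r) :
    gg₄ S ψ N i j t s y₁ X x χ c y (insert P₁ (insert q r)) q P₁ =
      if q ∈ (S.blk j).filter (fun q => S.spl q) then
        (if P₁ ∈ (S.blk i).filter (fun q => N q) then
          ∑ γ : C, (Fintype.card k : ℂ) ^ (rsj S j r).card *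
            (al₄ S ψ j y₁ x χ c y P r γ P₁ * be₄ S ψ N i j t s x χ c y P r γ q *
              Ph S ψ t s 0 y₁ q P₁ *
              (Real.exp (-((S.N q : ℝ) * S.N P₁ / (X / S.nm r))) : ℂ))
        else 0) else 0 := by
  have hqr : q ∉ r := (mem_sdiff.1 hq).2
  have hP' := mem_sdiff.1 hP
  have hPr : P₁ ∈ P \ r := mem_sdiff.2 ⟨hP'.1, fun h => hP'.2 (mem_insert_of_mem h)⟩
  unfold gg₄
  rw [if_congr (cond_iff₄ S N hN i j r q P₁ hqr hP'.2) rfl rfl]
  simp only [mem_filter, mem_blk]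
  by_cases h1 : S.bl q = j ∧ S.spl q
  · rw [if_pos h1]
    by_cases h2 : S.bl P₁ = i ∧ N P₁
    · rw [if_pos h2]
      rw [sum_eq_single (S.cls q)]
      · by_cases h3 : (∀ q' ∈ r, S.bs P₁ ≠ S.bs q') ∧ (N q → j < i) ∧
            S.cls P₁ + (S.cls q + ∑ q' ∈ r, S.cls q') = S.cl₀
        · have h4 : S.cls P₁ = S.cl₀ - S.cls q - ∑ q' ∈ r, S.cls q' := by
            rw [← h3.2.2]
            abel
          rw [if_pos ⟨hcR, h1, h2, h3⟩]
          unfold al₄ be₄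
          rw [if_pos (⟨hq, rfl, h3.2.1⟩ : q ∈ P \ r ∧ S.cls q = S.cls q ∧ (N q → j < i)),
            if_pos ⟨hPr, h4, h3.1⟩]
          rw [ph_two₄ S ψ χ j r x t s y₁ c y q P₁ hqr hP'.2,
            rs₄_eq S j r q P₁ hqr hP'.2 h1.1]
          have h5 : S.nm (insert P₁ (insert q r)) = S.N P₁ * (S.N q * S.nm r) := by
            unfold Sys.nm
            rw [prod_insert hP'.2, prod_insert hqr]
          have h6 : ((S.nm (insert P₁ (insert q r)) : ℕ) : ℝ) / X =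
              (S.N q : ℝ) * S.N P₁ / (X / S.nm r) := by
            have h7 : (S.nm r : ℝ) ≠ 0 := by exact_mod_cast (nm_pos S r).ne'
            rw [h5]
            push_cast
            field_simp
          rw [h6]
          ring
        · rw [if_neg (fun h => h3 h.2.2.2)]
          by_cases h4 : (∀ q' ∈ r, S.bs P₁ ≠ S.bs q') ∧
              S.cls P₁ + (S.cls q + ∑ q' ∈ r, S.cls q') = S.cl₀
          · have h5 : ¬ (N q → j < i) := fun h => h3 ⟨h4.1, h, h4.2⟩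
            unfold be₄
            rw [if_neg (fun h => h5 h.2.2)]
            ring
          · unfold al₄
            rw [if_neg]
            · ring
            · rintro ⟨-, h5, h6⟩
              refine h4 ⟨h6, ?_⟩
              rw [h5]
              abel
      · intro γ _ hγ
        unfold be₄
        rw [if_neg (fun h => hγ h.2.1.symm)]
        ring
      · intro h
        exact absurd (mem_univ _) h
    · rw [if_neg h2, if_neg]
      rintro ⟨-, -, h3, -⟩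
      exact h2 h3
  · rw [if_neg h1, if_neg]
    rintro ⟨-, h3, -⟩
    exact h1 h3

open Classical in
lemma inner_eq₄ [Algebra (ZMod p) k] [Fintype k] [Fintype C]
    (ψ : AddChar k ℂ) (N : B → Prop)
    (hN : (∀ q, N q ∧ S.spl q) ∨ (∀ q, N q → ¬ S.spl q)) (i j : ℕ)
    (t s y₁ : k) (X : ℝ) (hX : 0 < X)
    (x : U) (χ : AddChar Λ ℂ) (c y : B → k) (P r : Finset B)
    (hcR : cR₄ S N i j r) :
    ∑ q ∈ P \ r, ∑ P₁ ∈ P \ insert q r,
      gg₄ S ψ N i j t s y₁ X x χ c y (insert P₁ (insert q r)) q P₁ =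
    ∑ γ : C, (Fintype.card k : ℂ) ^ (rsj S j r).card *
      ∑ P₁ ∈ S.blk i with N P₁, ∑ q ∈ S.blk j with S.spl q,
        al₄ S ψ j y₁ x χ c y P r γ P₁ * be₄ S ψ N i j t s x χ c y P r γ q *
              Ph S ψ t s 0 y₁ q P₁ *
              (Real.exp (-((S.N q : ℝ) * S.N P₁ / (X / S.nm r))) : ℂ) := by
  set h : B → B → ℂ := fun q P₁ => ∑ γ : C, (Fintype.card k : ℂ) ^ (rsj S j r).card *
            (al₄ S ψ j y₁ x χ c y P r γ P₁ * be₄ S ψ N i j t s x χ c y P r γ q *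
              Ph S ψ t s 0 y₁ q P₁ *
              (Real.exp (-((S.N q : ℝ) * S.N P₁ / (X / S.nm r))) : ℂ)) with hh
  have hq0 : ∀ q P₁, q ∉ P \ r → h q P₁ = 0 := by
    intro q P₁ hq
    rw [hh]
    refine sum_eq_zero fun γ _ => ?_
    unfold be₄
    rw [if_neg (fun h => hq h.1)]
    ring
  have hP0 : ∀ q P₁, P₁ ∉ P \ r → h q P₁ = 0 := by
    intro q P₁ hq
    rw [hh]
    refine sum_eq_zero fun γ _ => ?_
    unfold al₄
    rw [if_neg (fun h => hq h.1)]
    ring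
  have e1 : ∑ q ∈ P \ r, ∑ P₁ ∈ P \ insert q r,
      gg₄ S ψ N i j t s y₁ X x χ c y (insert P₁ (insert q r)) q P₁ =
      ∑ q ∈ P \ r, if q ∈ (S.blk j).filter (fun q => S.spl q) then
        ∑ P₁ ∈ P \ r, (if P₁ ∈ (S.blk i).filter (fun q => N q) then h q P₁ else 0)
        else 0 := by
    refine sum_congr rfl fun q hq => ?_
    have e2 : ∑ P₁ ∈ P \ insert q r,
        gg₄ S ψ N i j t s y₁ X x χ c y (insert P₁ (insert q r)) q P₁ =
        ∑ P₁ ∈ P \ insert q r, (if q ∈ (S.blk j).filter (fun q => S.spl q) then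
          (if P₁ ∈ (S.blk i).filter (fun q => N q) then h q P₁ else 0) else 0) :=
      sum_congr rfl fun P₁ hP => gg_eq₄ S ψ N hN i j t s y₁ X hX x χ c y P r hcR q P₁
        hq hP
    rw [e2]
    split_ifs with h1
    · refine sum_subset (sdiff_subset_sdiff subset_rfl (subset_insert _ _)) ?_
      intro P₁ h2 h3
      have h4 : P₁ = q := by
        by_contra h4
        refine h3 (mem_sdiff.2 ⟨(mem_sdiff.1 h2).1, fun h5 => ?_⟩)
        rcases mem_insert.1 h5 with h6 | h6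
        · exact h4 h6
        · exact (mem_sdiff.1 h2).2 h6
      split_ifs with h5
      · rw [h4] at h5
        have h6 := mem_filter.1 h5
        have h7 := mem_filter.1 h1
        have h8 := (mem_blk S i q).1 h6.1
        have h9 := (mem_blk S j q).1 h7.1
        rcases hN with hN | hN
        · rw [hh]
          refine sum_eq_zero fun γ _ => ?_
          unfold be₄
          rw [if_neg (fun h => by
            have := h.2.2 h6.2
            omega)]
          ring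
        · exact absurd h7.2 (hN q h6.2)
      · rfl
    · simp
  rw [e1, sum_swap]
  have e3 : ∀ q ∈ (S.blk j).filter (fun q => S.spl q),
      (if q ∈ P \ r then ∑ P₁ ∈ P \ r,
        (if P₁ ∈ (S.blk i).filter (fun q => N q) then h q P₁ else 0) else 0) =
      ∑ P₁ ∈ (S.blk i).filter (fun q => N q), h q P₁ := by
    intro q _
    split_ifs with h1
    · rw [sum_swap]
      refine sum_congr rfl fun P₁ _ => ?_
      split_ifs with h2
      · rfl
      · exact (hP0 q P₁ h2).symm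
    · exact (sum_eq_zero fun P₁ _ => hq0 q P₁ h1).symm
  rw [sum_congr rfl e3, sum_comm]
  rw [hh]
  simp only [mul_sum]
  calc _ = ∑ P₁ ∈ (S.blk i).filter (fun q => N q), ∑ γ : C,
      ∑ q ∈ (S.blk j).filter (fun q => S.spl q),
            (Fintype.card k : ℂ) ^ (rsj S j r).card *
            (al₄ S ψ j y₁ x χ c y P r γ P₁ * be₄ S ψ N i j t s x χ c y P r γ q *
              Ph S ψ t s 0 y₁ q P₁ *
              (Real.exp (-((S.N q : ℝ) * S.N P₁ / (X / S.nm r))) : ℂ)) :=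
        sum_congr rfl fun P₁ _ => sum_comm
    _ = _ := sum_comm

open Classical in
lemma inner_le₄ [Algebra (ZMod p) k] [Fintype k] [Fintype C] [Finite Λ]
    (ψ : AddChar k ℂ) (e : B → k) (N : B → Prop) (Y : AddSubgroup k) (g : ℝ → ℝ) (K : ℕ)
    (hH : Hyp₄ S ψ e N Y g K)
    (i j : ℕ) (hi : 1 ≤ i) (hj : 1 ≤ j)
    (t s y₁ : k) (ht : t ≠ 0) (hy : y₁ ∈ Y) (hs : s ≠ 0 ∨ y₁ ≠ 0) (X : ℝ) (hX : 0 < X)
    (x : U) (χ : AddChar Λ ℂ) (c y : B → k) (P r : Finset B) :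
    ‖∑ q ∈ P \ r, ∑ P₁ ∈ P \ insert q r,
      gg₄ S ψ N i j t s y₁ X x χ c y (insert P₁ (insert q r)) q P₁‖ ≤
    Fintype.card C * ((Fintype.card k : ℝ) ^ r.card *
      (K * 2 ^ (i + j) * (i + j) ^ K * (2 : ℝ) ^ (-(min i j : ℝ) / K) *
        Real.exp (-(S.nm r / (2 * X / 2 ^ (i + j)))))) := by
  have hnm : (0 : ℝ) < S.nm r := by exact_mod_cast nm_pos S r
  have hN : (∀ q, N q ∧ S.spl q) ∨ (∀ q, N q → ¬ S.spl q) := hH.cas.imp id fun h => h.1
  by_cases hcR : cR₄ S N i j r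
  · rw [inner_eq₄ S ψ N hN i j t s y₁ X hX x χ c y P r hcR]
    refine (norm_sum_le _ _).trans ?_
    have h4 : (1 : ℝ) ≤ Fintype.card k := by exact_mod_cast Fintype.card_pos
    have h1 : ∀ γ ∈ (univ : Finset C), ‖(Fintype.card k : ℂ) ^ (rsj S j r).card *
      ∑ P₁ ∈ S.blk i with N P₁, ∑ q ∈ S.blk j with S.spl q,
        al₄ S ψ j y₁ x χ c y P r γ P₁ * be₄ S ψ N i j t s x χ c y P r γ q *
              Ph S ψ t s 0 y₁ q P₁ *
              (Real.exp (-((S.N q : ℝ) * S.N P₁ / (X / S.nm r))) : ℂ)‖ ≤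
        (Fintype.card k : ℝ) ^ r.card *
      (K * 2 ^ (i + j) * (i + j) ^ K * (2 : ℝ) ^ (-(min i j : ℝ) / K) *
        Real.exp (-(S.nm r / (2 * X / 2 ^ (i + j))))) := by
      intro γ _
      rw [norm_mul, norm_pow, Complex.norm_natCast]
      have h5 : (rsj S j r).card ≤ r.card := card_filter_le _ _
      by_cases hc : i ≠ j ∨ ∀ q', N q' → ¬ S.spl q'
      · have h2 := hH.bl₅ i j t s y₁ (al₄ S ψ j y₁ x χ c y P r γ)
          (be₄ S ψ N i j t s x χ c y P r γ)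
          (X / S.nm r) hi hj hc ht hy hs (by positivity) (al_norm₄ S ψ j y₁ x χ c y P r γ)
          (be_norm₄ S ψ N i j t s x χ c y P r γ)
        have h3 : (2 : ℝ) ^ (i + j) / (2 * (X / S.nm r)) = S.nm r / (2 * X / 2 ^ (i + j)) := by
          field_simp
        rw [h3] at h2
        unfold Ph
        simp only [zero_mul, zero_add, add_zero]
        exact mul_le_mul (pow_le_pow_right₀ h4 h5) h2 (norm_nonneg _) (by positivity)
      · push Not at hc
        obtain ⟨hij, q', h6, h7⟩ := hc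
        have hN' : ∀ q, N q ∧ S.spl q := by
          rcases hN with hN | hN
          · exact hN
          · exact absurd h7 (hN q' h6)
        have h6 : ∑ P₁ ∈ S.blk i with N P₁, ∑ q ∈ S.blk j with S.spl q,
            al₄ S ψ j y₁ x χ c y P r γ P₁ * be₄ S ψ N i j t s x χ c y P r γ q *
              Ph S ψ t s 0 y₁ q P₁ *
              (Real.exp (-((S.N q : ℝ) * S.N P₁ / (X / S.nm r))) : ℂ) = 0 := by
          refine sum_eq_zero fun P₁ _ => sum_eq_zero fun q _ => ?_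
          unfold be₄
          rw [if_neg (fun h => by
            have := h.2.2 (hN' q).1
            omega)]
          ring
        rw [h6, norm_zero, mul_zero]
        positivity
    refine (sum_le_sum h1).trans ?_
    rw [sum_const, nsmul_eq_mul, card_univ]
  · have h1 : ∑ q ∈ P \ r, ∑ P₁ ∈ P \ insert q r,
        gg₄ S ψ N i j t s y₁ X x χ c y (insert P₁ (insert q r)) q P₁ = 0 := by
      refine sum_eq_zero fun q hq => sum_eq_zero fun P₁ hP => ?_
      unfold gg₄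
      rw [if_neg]
      rw [cond_iff₄ S N hN i j r q P₁ (mem_sdiff.1 hq).2 (mem_sdiff.1 hP).2]
      exact fun h => hcR h.1
    rw [h1, norm_zero]
    positivity

open Classical in
lemma fixed_le₄ (hdec : C_DEC) [Algebra (ZMod p) k] [Fintype k] [Fintype C] [Finite Λ]
    (ψ : AddChar k ℂ) (e : B → k) (N : B → Prop) (Y : AddSubgroup k) (g : ℝ → ℝ) (K : ℕ)
    (hH : Hyp₄ S ψ e N Y g K)
    (i j : ℕ) (hi : 1 ≤ i) (hj : 1 ≤ j)
    (t s y₁ : k) (ht : t ≠ 0) (hy : y₁ ∈ Y) (hs : s ≠ 0 ∨ y₁ ≠ 0) (X : ℝ) (hX : 0 < X)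
    (x : U) (χ : AddChar Λ ℂ) (c y : B → k) (P : Finset B) :
    ‖∑ b ∈ P.powerset with S.Fam b, ∑ q ∈ b with (Wv S b q ∧ S.bl q = j),
      ∑ P₁ ∈ b with (Piv S N b P₁ ∧ P₁ ≠ q ∧ S.bl P₁ = i),
      (Fintype.card k : ℂ) ^ (rs₄ S b q P₁).card *
      ph S ψ χ b x (cutd S (S.bl q) q P₁ t c) (cute S (S.bl q) q P₁ s y₁ y) *
      (Real.exp (-(S.nm b / X)) : ℂ)‖ ≤
    ∑ r ∈ P.powerset, Fintype.card C * ((Fintype.card k : ℝ) ^ r.card *
      (K * 2 ^ (i + j) * (i + j) ^ K * (2 : ℝ) ^ (-(min i j : ℝ) / K) *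
        Real.exp (-(S.nm r / (2 * X / 2 ^ (i + j)))))) := by
  have e1 : ∑ b ∈ P.powerset with S.Fam b, ∑ q ∈ b with (Wv S b q ∧ S.bl q = j),
      ∑ P₁ ∈ b with (Piv S N b P₁ ∧ P₁ ≠ q ∧ S.bl P₁ = i),
      (Fintype.card k : ℂ) ^ (rs₄ S b q P₁).card *
      ph S ψ χ b x (cutd S (S.bl q) q P₁ t c) (cute S (S.bl q) q P₁ s y₁ y) *
      (Real.exp (-(S.nm b / X)) : ℂ) =
      ∑ b ∈ P.powerset, ∑ q ∈ b, ∑ P₁ ∈ b, gg₄ S ψ N i j t s y₁ X x χ c y b q P₁ := by
    rw [sum_filter]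
    refine sum_congr rfl fun b _ => ?_
    by_cases h1 : S.Fam b
    · rw [if_pos h1, sum_filter]
      refine sum_congr rfl fun q _ => ?_
      by_cases h2 : Wv S b q ∧ S.bl q = j
      · rw [if_pos h2, sum_filter]
        refine sum_congr rfl fun P₁ _ => ?_
        unfold gg₄
        by_cases h3 : Piv S N b P₁ ∧ P₁ ≠ q ∧ S.bl P₁ = i
        · rw [if_pos h3, if_pos ⟨h1, h2, h3⟩, h2.2]
        · rw [if_neg h3, if_neg (fun h => h3 h.2.2)]
      · rw [if_neg h2]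
        refine (sum_eq_zero fun P₁ _ => ?_).symm
        unfold gg₄
        rw [if_neg (fun h => h2 h.2.1)]
    · rw [if_neg h1]
      refine (sum_eq_zero fun q _ => sum_eq_zero fun P₁ _ => ?_).symm
      unfold gg₄
      rw [if_neg (fun h => h1 h.1)]
  rw [e1, decomp hdec P (gg₄ S ψ N i j t s y₁ X x χ c y) (fun b q => by
    unfold gg₄
    rw [if_neg (fun h => h.2.2.2.1 rfl)])]
  refine (norm_sum_le _ _).trans (sum_le_sum fun r _ => ?_)
  exact inner_le₄ S ψ e N Y g K hH i j hi hj t s y₁ ht hy hs X hX x χ c y P r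

open Classical in
lemma ful_eq₄ [Algebra (ZMod p) k] [Fintype k] [Fintype U] [Fintype Λ]
    (ψ : AddChar k ℂ) (P b : Finset B) (q P₁ : B) (t s y₁ : k) (e : ℂ) :
    ful₄ S ψ P b q P₁ t s y₁ (fun _ _ _ ↦ True) * e =
      ∑ z ∈ (univ : Finset U) ×ˢ (univ : Finset (AddChar Λ ℂ)) ×ˢ (lab k P) ×ˢ (lab k P),
        (1 / (Fintype.card Λ * ((lab k P).card : ℂ) ^ 2)) *
        ((Fintype.card k : ℂ) ^ (rs₄ S b q P₁).card *
          ph S ψ z.2.1 b z.1 (cutd S (S.bl q) q P₁ t z.2.2.1)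
            (cute S (S.bl q) q P₁ s y₁ z.2.2.2) * e) := by
  unfold ful₄
  rw [sum_product]
  simp only [sum_product, filter_true]
  simp only [mul_sum, sum_mul]
  refine sum_congr rfl fun x _ => sum_congr rfl fun χ _ => sum_congr rfl fun c _ =>
    sum_congr rfl fun y _ => ?_
  ring

open Classical in
lemma total_le₄ (hdec : C_DEC) [Algebra (ZMod p) k] [Fintype k] [Fintype C] [Fintype U]
    [Fintype Λ]
    (ψ : AddChar k ℂ) (e : B → k) (N : B → Prop) (Y : AddSubgroup k) (g : ℝ → ℝ) (K : ℕ)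
    (hH : Hyp₄ S ψ e N Y g K)
    (i j : ℕ) (hi : 1 ≤ i) (hj : 1 ≤ j)
    (t s y₁ : k) (ht : t ≠ 0) (hy : y₁ ∈ Y) (hs : s ≠ 0 ∨ y₁ ≠ 0) (X : ℝ) (hX : 0 < X)
    (P : Finset B) :
    ‖∑ b ∈ P.powerset with S.Fam b, ∑ q ∈ b with (Wv S b q ∧ S.bl q = j),
      ∑ P₁ ∈ b with (Piv S N b P₁ ∧ P₁ ≠ q ∧ S.bl P₁ = i),
        ful₄ S ψ P b q P₁ t s y₁ (fun _ _ _ ↦ True) * (Real.exp (-(S.nm b / X)) : ℂ)‖ ≤
    Fintype.card U *
    ∑ r ∈ P.powerset, Fintype.card C * ((Fintype.card k : ℝ) ^ r.card *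
      (K * 2 ^ (i + j) * (i + j) ^ K * (2 : ℝ) ^ (-(min i j : ℝ) / K) *
        Real.exp (-(S.nm r / (2 * X / 2 ^ (i + j)))))) := by
  set M₁ := ∑ r ∈ P.powerset, Fintype.card C * ((Fintype.card k : ℝ) ^ r.card *
      (K * 2 ^ (i + j) * (i + j) ^ K * (2 : ℝ) ^ (-(min i j : ℝ) / K) *
        Real.exp (-(S.nm r / (2 * X / 2 ^ (i + j)))))) with hM
  have hM0 : 0 ≤ M₁ := by
    rw [hM]
    positivity
  set Z : Finset (U × AddChar Λ ℂ × (B → k) × (B → k)) :=
    (univ : Finset U) ×ˢ (univ : Finset (AddChar Λ ℂ)) ×ˢ (lab k P) ×ˢ (lab k P) with hZ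
  have hlab : 0 < (lab k P).card := card_pos.2 ⟨0, mem_lab.2 fun _ _ => rfl⟩
  have e1 : ∑ b ∈ P.powerset with S.Fam b, ∑ q ∈ b with (Wv S b q ∧ S.bl q = j),
      ∑ P₁ ∈ b with (Piv S N b P₁ ∧ P₁ ≠ q ∧ S.bl P₁ = i),
        ful₄ S ψ P b q P₁ t s y₁ (fun _ _ _ ↦ True) * (Real.exp (-(S.nm b / X)) : ℂ) =
      ∑ z ∈ Z, (1 / (Fintype.card Λ * ((lab k P).card : ℂ) ^ 2)) *
      ∑ b ∈ P.powerset with S.Fam b, ∑ q ∈ b with (Wv S b q ∧ S.bl q = j),
      ∑ P₁ ∈ b with (Piv S N b P₁ ∧ P₁ ≠ q ∧ S.bl P₁ = i),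
      (Fintype.card k : ℂ) ^ (rs₄ S b q P₁).card *
      ph S ψ z.2.1 b z.1 (cutd S (S.bl q) q P₁ t z.2.2.1)
        (cute S (S.bl q) q P₁ s y₁ z.2.2.2) *
      (Real.exp (-(S.nm b / X)) : ℂ) := by
    simp only [ful_eq₄, mul_sum]
    calc _ = ∑ b ∈ P.powerset with S.Fam b, ∑ z ∈ Z,
        ∑ q ∈ b with (Wv S b q ∧ S.bl q = j),
          ∑ P₁ ∈ b with (Piv S N b P₁ ∧ P₁ ≠ q ∧ S.bl P₁ = i),
          (1 / (Fintype.card Λ * ((lab k P).card : ℂ) ^ 2)) *
          ((Fintype.card k : ℂ) ^ (rs₄ S b q P₁).card *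
      ph S ψ z.2.1 b z.1 (cutd S (S.bl q) q P₁ t z.2.2.1)
        (cute S (S.bl q) q P₁ s y₁ z.2.2.2) *
      (Real.exp (-(S.nm b / X)) : ℂ)) := by
          refine sum_congr rfl fun b _ => ?_
          exact Eq.trans (sum_congr rfl fun q _ => sum_comm) sum_comm
      _ = _ := sum_comm
  rw [e1]
  refine (norm_sum_le _ _).trans ?_
  have h1 : ∀ z ∈ Z, ‖(1 / (Fintype.card Λ * ((lab k P).card : ℂ) ^ 2)) *
      ∑ b ∈ P.powerset with S.Fam b, ∑ q ∈ b with (Wv S b q ∧ S.bl q = j),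
      ∑ P₁ ∈ b with (Piv S N b P₁ ∧ P₁ ≠ q ∧ S.bl P₁ = i),
      (Fintype.card k : ℂ) ^ (rs₄ S b q P₁).card *
      ph S ψ z.2.1 b z.1 (cutd S (S.bl q) q P₁ t z.2.2.1)
        (cute S (S.bl q) q P₁ s y₁ z.2.2.2) *
      (Real.exp (-(S.nm b / X)) : ℂ)‖ ≤
      1 / (Fintype.card Λ * ((lab k P).card : ℝ) ^ 2) * M₁ := by
    intro z hz
    rw [norm_mul, norm_div, norm_one, norm_mul, norm_pow, Complex.norm_natCast,
      Complex.norm_natCast]
    exact mul_le_mul_of_nonneg_left (fixed_le₄ S hdec ψ e N Y g K hH i j hi hj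
      t s y₁ ht hy hs X hX z.1 z.2.1 z.2.2.1 z.2.2.2 P) (by positivity)
  refine (sum_le_sum h1).trans ?_
  rw [sum_const, nsmul_eq_mul]
  have h3 : Z.card = Fintype.card U * (Fintype.card Λ *
      ((lab k P).card * (lab k P).card)) := by
    rw [hZ, card_product, card_product, card_product, card_univ, card_univ, AddChar.card_eq]
  have h4 : (Z.card : ℝ) = Fintype.card U *
      (Fintype.card Λ * ((lab k P).card : ℝ) ^ 2) := by
    rw [h3]
    push_cast
    ring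
  have h7 : (0 : ℝ) < (lab k P).card := by exact_mod_cast hlab
  have h8 : (0 : ℝ) < Fintype.card Λ := by exact_mod_cast Fintype.card_pos
  rw [h4]
  apply le_of_eq
  field_simp

open Classical in
lemma upto_sum₄ [Algebra (ZMod p) k] [Fintype k]
    (ψ : AddChar k ℂ) (g : ℝ → ℝ) (K : ℕ) (hH : HypW S ψ g K)
    (X Y : ℝ) (hYX : Y ≤ X) :
    ∑ q ∈ S.upto Y, (1 : ℝ) / S.N q ≤ K * (1 + Real.log (lg X + 1)) := by
  have h1 : ∀ q ∈ S.upto Y, S.bl q ∈ Icc 1 (lg X) := by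
    intro q hq
    unfold Sys.upto at hq
    rw [Set.Finite.mem_toFinset] at hq
    have h2 : S.N q ≤ ⌊X⌋₊ := le_trans hq (Nat.floor_le_floor hYX)
    rw [mem_Icc]
    constructor
    · unfold Sys.bl
      exact Nat.log_pos (by norm_num) (S.two_le q)
    · unfold Sys.bl lg
      exact Nat.log_mono_right h2
  rw [← sum_fiberwise_of_maps_to h1]
  have h2 : ∀ m ∈ Icc 1 (lg X), ∑ q ∈ S.upto Y with S.bl q = m, (1 : ℝ) / S.N q ≤
      K * (m : ℝ)⁻¹ := by
    intro m hm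
    refine le_trans ?_ ((hH.che m (mem_Icc.1 hm).1).trans_eq (div_eq_mul_inv _ _))
    refine sum_le_sum_of_subset_of_nonneg ?_ fun q _ _ => by positivity
    intro q hq
    exact (mem_blk S m q).2 (mem_filter.1 hq).2
  refine (sum_le_sum h2).trans ?_
  rw [← mul_sum]
  refine mul_le_mul_of_nonneg_left ?_ (by positivity)
  have h3 := harmonic_le_one_add_log (lg X)
  rw [harmonic_eq_sum_Icc] at h3
  push_cast at h3
  refine h3.trans ?_
  rcases Nat.eq_zero_or_pos (lg X) with h4 | h4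
  · rw [h4]
    simp
  · have h5 : (0 : ℝ) < lg X := by exact_mod_cast h4
    have := Real.log_le_log h5 (show (lg X : ℝ) ≤ lg X + 1 by linarith)
    linarith

open Classical in
theorem q_d (hdec : C_DEC) : Pool.Agent.Helper11.M3.Q_D := by
  intro p _ B B₀ k U Λ C _ _ _ _ _ _ _ _ _ _ _ S ψ e N Ys g K hH
  have : Fintype C := Fintype.ofFinite C
  set n0 := (Fintype.card k - 1) * K with hn0
  set C1 : ℕ := 4 * Fintype.card U * Fintype.card C * K ^ 3 * 3 ^ n0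
    with hC1
  refine ⟨C1 + n0, fun i j t s y₁ X P hi hj ht hy hs hX => ?_⟩
  have hX0 : 0 < X := by linarith
  refine (total_le₄ S hdec ψ e N Ys g K hH i j hi hj t s y₁ ht hy hs X hX0 P).trans ?_
  set Y : ℝ := 2 * X / 2 ^ (i + j) with hY
  have hY0 : 0 < Y := by positivity
  have h2ij : (2 : ℝ) ≤ 2 ^ (i + j) := by
    calc (2 : ℝ) = 2 ^ 1 := by norm_num
      _ ≤ 2 ^ (i + j) := pow_le_pow_right₀ (by norm_num) (by omega)
  have hYX : Y ≤ X := by
    rw [hY, div_le_iff₀ (by positivity)]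
    nlinarith
  set w : ℝ := (2 : ℝ) ^ (-(min i j : ℝ) / K) with hw
  have hw0 : 0 ≤ w := by positivity
  have hQ1 : 1 ≤ Fintype.card k := Fintype.card_pos
  have hK1 : (1 : ℝ) ≤ K := by exact_mod_cast hH.one_le
  have hgX : 1 ≤ g X := hH.g_one X
  have hgY : g Y ≤ K * g X := hH.g_mono Y X hYX
  have h1 := hH.ht (fun _ => Fintype.card k) (fun q => ⟨by positivity, by linarith⟩) Y hY0 P
  simp only [prod_const] at h1
  have h2 : ∑ q ∈ S.upto Y, ((Fintype.card k : ℝ) - 1) / S.N q ≤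
      n0 * (1 + Real.log (lg X + 1)) := by
    have h3 := upto_sum₄ S ψ g K hH.toHypW X Y hYX
    have h4 : ∑ q ∈ S.upto Y, ((Fintype.card k : ℝ) - 1) / S.N q =
        ((Fintype.card k : ℝ) - 1) * ∑ q ∈ S.upto Y, (1 : ℝ) / S.N q := by
      rw [mul_sum]
      exact sum_congr rfl fun q _ => by ring
    rw [h4, hn0]
    push_cast [Nat.cast_sub hQ1]
    rw [mul_assoc]
    refine mul_le_mul_of_nonneg_left h3 ?_
    have : (1 : ℝ) ≤ Fintype.card k := by exact_mod_cast hQ1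
    linarith
  have hL0 : (0 : ℝ) < (lg X : ℝ) + 1 := by positivity
  have h3 : Real.exp (∑ q ∈ S.upto Y, ((Fintype.card k : ℝ) - 1) / S.N q) ≤
      3 ^ n0 * ((lg X : ℝ) + 2) ^ n0 := by
    calc _ ≤ Real.exp (n0 * (1 + Real.log (lg X + 1))) := Real.exp_le_exp.2 h2
      _ = (Real.exp 1 * (lg X + 1)) ^ n0 := by
        rw [Real.exp_nat_mul, Real.exp_add, Real.exp_log hL0]
      _ ≤ (3 * ((lg X : ℝ) + 2)) ^ n0 := by
        have h4 : Real.exp 1 ≤ 3 := by
          have := Real.exp_one_lt_d9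
          linarith
        refine pow_le_pow_left₀ (by positivity) ?_ _
        refine mul_le_mul h4 (by linarith) hL0.le (by norm_num)
      _ = _ := by rw [mul_pow]
  have hmin : min 1 Y ≤ 2 * min 1 (X / 2 ^ (i + j)) := by
    have h5 : Y = 2 * (X / 2 ^ (i + j)) := by
      rw [hY]
      ring
    rw [h5]
    have h6 : 0 < X / 2 ^ (i + j) := by positivity
    rcases le_total 1 (X / 2 ^ (i + j)) with h7 | h7
    · rw [min_eq_left h7]
      exact (min_le_left _ _).trans (by norm_num)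
    · rw [min_eq_right h7]
      exact min_le_right _ _
  set mm : ℝ := min 1 (X / 2 ^ (i + j)) with hmm
  have hmm0 : 0 ≤ mm := by
    rw [hmm]
    exact le_min (by norm_num) (by positivity)
  -- the sum over `r`
  have h8 : ∑ r ∈ P.powerset, Fintype.card C * ((Fintype.card k : ℝ) ^ r.card *
      (K * 2 ^ (i + j) * (i + j) ^ K * w * Real.exp (-(S.nm r / Y)))) ≤
      Fintype.card C * (K * 2 ^ (i + j) * (i + j) ^ K * w) *
        (K * (Y * (2 * mm) * (K * g X)) * (3 ^ n0 * ((lg X : ℝ) + 2) ^ n0)) := by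
    have e1 : ∑ r ∈ P.powerset, Fintype.card C * ((Fintype.card k : ℝ) ^ r.card *
        (K * 2 ^ (i + j) * (i + j) ^ K * w * Real.exp (-(S.nm r / Y)))) =
        Fintype.card C * (K * 2 ^ (i + j) * (i + j) ^ K * w) *
        ∑ r ∈ P.powerset, (Fintype.card k : ℝ) ^ r.card * Real.exp (-(S.nm r / Y)) := by
      rw [mul_sum]
      exact sum_congr rfl fun r _ => by ring
    rw [e1]
    refine mul_le_mul_of_nonneg_left ?_ (by positivity)
    refine h1.trans ?_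
    have hgY0 : 0 ≤ g Y := le_trans (by norm_num) (hH.g_one Y)
    have h9 : Y * min 1 Y * g Y ≤ Y * (2 * mm) * (K * g X) := by
      have h10 : 0 ≤ min 1 Y := le_min (by norm_num) hY0.le
      gcongr
    have h11 : 0 ≤ Y * min 1 Y * g Y := by
      have h10 : 0 ≤ min 1 Y := le_min (by norm_num) hY0.le
      positivity
    refine mul_le_mul ?_ h3 (Real.exp_pos _).le ?_
    · exact mul_le_mul_of_nonneg_left h9 (by positivity)
    · have : 0 ≤ Y * (2 * mm) * (K * g X) := h11.trans h9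
      positivity
  refine (mul_le_mul_of_nonneg_left h8 (by positivity)).trans ?_
  have h12 : (2 : ℝ) ^ (i + j) * Y = 2 * X := by
    rw [hY]
    field_simp
  have h13 : (Fintype.card U : ℝ) * (Fintype.card C *
      (K * 2 ^ (i + j) * (i + j) ^ K * w) *
        (K * (Y * (2 * mm) * (K * g X)) * (3 ^ n0 * ((lg X : ℝ) + 2) ^ n0))) =
      (C1 : ℝ) * ((lg X : ℝ) + 2) ^ n0 * (i + j) ^ K * w * mm * (X * g X) := by
    rw [hC1]
    push_cast
    linear_combination ((Fintype.card U : ℝ) * Fintype.card C * K ^ 3 *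
      (i + j) ^ K * w * 2 * mm * g X * 3 ^ n0 * ((lg X : ℝ) + 2) ^ n0) * h12
  rw [h13]
  have h14 : (C1 : ℝ) ≤ ((C1 + n0 : ℕ) : ℝ) := by
    push_cast
    have : (0 : ℝ) ≤ n0 := Nat.cast_nonneg _
    linarith
  have h15 : ((lg X : ℝ) + 2) ^ n0 ≤ ((lg X : ℝ) + 2) ^ (C1 + n0) := by
    refine pow_le_pow_right₀ ?_ (by omega)
    have : (0 : ℝ) ≤ lg X := Nat.cast_nonneg _
    linarith
  have h16 : 0 ≤ X * g X := by positivity
  gcongr

end Pool.Agent.Helper83.M3
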